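import Pool.Agent.K.MP_d5a1e1_nt.C0

theorem Pool.Agent.Results.MP_d5a1e1_nt.AllMoments.result :
    ∃ (A : Set ℕ) (r : ℕ → ℕ),
      (∀ n : ℕ, r n = Set.ncard {y : ℕ × ℕ | y.1 ∈ A ∧ y.2 ∈ A ∧ y.1 + y.2 = n}) ∧
      (∀ n : ℕ, ∃ a ∈ A, ∃ b ∈ A, a + b = n) ∧
      (∃ K : ℝ, ∃ N : ℕ, ∀ n : ℕ, N ≤ n →
        (r n : ℝ) ≤ K * (Real.log n / Real.log (Real.log n))) ∧
      (∃ C : ℕ, 0 < C ∧ ∀ N : ℕ, ∑ n ∈ Finset.range N, (r n / C).factorial ≤ C * N) ∧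
      (∀ t : ℝ, ∃ K : ℝ, ∀ N : ℕ, ∑ n ∈ Finset.range N, Real.exp (t * r n) ≤ K * N) ∧
      (∀ p : ℕ, ∃ K : ℝ, ∀ N : ℕ, ∑ n ∈ Finset.range N, (r n : ℝ) ^ p ≤ K * N) := by
  obtain ⟨A, h1, C, hC, h⟩ := Pool.Agent.P.MP_d5a1e1_nt.Thin.moment_basis
  exact ⟨A, _, fun _ => rfl, h1, Pool.Agent.P.MP_d5a1e1_nt.Thin.max_order _ C hC h, ⟨C, hC, h⟩,
    Pool.Agent.P.MP_d5a1e1_nt.Thin.exp_moment _ C hC h,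
    Pool.Agent.P.MP_d5a1e1_nt.Thin.pow_moment _ C hC h⟩
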