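import Pool.Agent.P.MP_d5a1e1_nt.JbD

set_option autoImplicit false

/-- For every order `h` there is a basis whose ordered representation function has mean square
at most `K log log N`. -/
theorem Pool.Agent.Results.MP_d5a1e1_nt.JustBasis.result : ∀ h : ℕ, 2 ≤ h → ∃ A : Set ℕ,
    (∀ n : ℕ, ∃ x : Fin h → ℕ, (∀ j, x j ∈ A) ∧ ∑ j, x j = n) ∧
    ∃ K : ℝ, ∀ N : ℕ, 3 ≤ N →
      ∑ n ∈ Finset.range N,
          (Set.ncard {x : Fin h → ℕ | (∀ j, x j ∈ A) ∧ ∑ j, x j = n} : ℝ) ^ 2 ≤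
        K * N * Real.log (Real.log N) :=
  fun _ hh => Pool.Agent.P.MP_d5a1e1_nt.Jb.just_basis (by omega)
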