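import Pool.Agent.K.MP_d5a1e1_nt.C2

theorem Pool.Agent.Results.MP_d5a1e1_nt.OrderTwoFourReps.result (A : Set ℕ)
    (hE : ∃ N₀ : ℕ, ∀ N : ℕ, N₀ ≤ N →
      210 * Set.ncard {n : ℕ | n < N ∧ ¬ ∃ a ∈ A, ∃ b ∈ A, a + b = n} ≤ N) :
    ∀ N₁ : ℕ, ∃ n : ℕ, N₁ ≤ n ∧
      4 ≤ Set.ncard {p : ℕ × ℕ | p.1 ∈ A ∧ p.2 ∈ A ∧ p.1 < p.2 ∧ p.1 + p.2 = n} :=
  Pool.Agent.P.MP_d5a1e1_nt.four_reps A hE
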