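import Pool.Agent.K.MP_d5a1e1_nt.C4

theorem Pool.Agent.Results.MP_d5a1e1_nt.PowerSaving.result (θ : ℝ) (hθ : 2 / 3 < θ) :
    ∃ A : Set ℕ, (∀ n : ℕ, ∃ a ∈ A, ∃ b ∈ A, a + b = n) ∧
      ∃ K : ℝ, ∀ n : ℕ, 2 ≤ n →
        (Set.ncard {y : ℕ × ℕ | y.1 ∈ A ∧ y.2 ∈ A ∧ y.1 + y.2 = n} : ℝ) ≤
          K * Real.log n ^ θ :=
  Pool.Agent.P.MP_d5a1e1_nt.T3.thin hθ
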